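import Mathlib

namespace Pool.Agent.P.MP_126cd2_nt

/-- `x` is a sum of at most `n` numbers of the form `2 ^ i * 3 ^ j`, repetitions allowed. -/
def IsSumOf (n x : ℕ) : Prop :=
  ∃ s : Multiset ℕ, s.card ≤ n ∧ (∀ m ∈ s, ∃ i j : ℕ, m = 2 ^ i * 3 ^ j) ∧ s.sum = x

/-- The least positive integer that is not a sum of at most `n` such numbers. -/
noncomputable def h (n : ℕ) : ℕ := sInf {x : ℕ | 0 < x ∧ ¬ IsSumOf n x}

end Pool.Agent.P.MP_126cd2_nt
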