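import Mathlib
import Pool.Agent.P.MP_126cd2_nt.Defs

namespace Pool.Agent.P.MP_126cd2_nt

open Finset Real Filter

theorem two_pow_eq (u : ℕ) : ∃ t : ℕ, 2 ^ (2 * 3 ^ u) = 1 + 3 ^ (u + 1) * (1 + 3 * t) := by
  induction u with
  | zero => exact ⟨0, by norm_num⟩
  | succ u ih =>
    obtain ⟨t, ht⟩ := ih
    refine ⟨t + 3 ^ u * (1 + 3 * t) ^ 2 + 3 ^ u * 3 ^ u * (1 + 3 * t) ^ 3, ?_⟩
    rw [show 2 * 3 ^ (u + 1) = 2 * 3 ^ u * 3 by ring, pow_mul, ht]
    ring

theorem exists_two_pow (u : ℕ) : ∀ y : ℕ, ¬ 3 ∣ y →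
    ∃ j, j < 2 * 3 ^ u ∧ 2 ^ j ≡ y [MOD 3 ^ (u + 1)] := by
  intro y hy
  induction u with
  | zero =>
    have : y % 3 = 1 ∨ y % 3 = 2 := by omega
    rcases this with h | h
    · exact ⟨0, by norm_num, by simp [Nat.ModEq, h]⟩
    · exact ⟨1, by norm_num, by simp [Nat.ModEq, h]⟩
  | succ u ih =>
    obtain ⟨j, hj, hmod⟩ := ih
    obtain ⟨t, ht⟩ := two_pow_eq u
    have hz : ((2 : ℤ) ^ j) ≡ y [ZMOD 3 ^ (u + 1)] := by
      have := (Int.natCast_modEq_iff).2 hmod
      exact_mod_cast this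
    obtain ⟨c, hc⟩ := hz.dvd
    have htz : (2 : ℤ) ^ (2 * 3 ^ u) = 1 + 3 ^ (u + 1) * (1 + 3 * t) := by exact_mod_cast ht
    have h2 : ¬ (3 : ℤ) ∣ 2 ^ j := fun h => by
      have := Int.prime_three.dvd_of_dvd_pow h
      omega
    have key : ∀ s : ℕ, ∃ e : ℤ, (2 : ℤ) ^ (j + s * (2 * 3 ^ u)) =
        2 ^ j + 3 ^ (u + 1) * (s * 2 ^ j + 3 * e) := by
      intro s
      induction s with
      | zero => exact ⟨0, by simp⟩
      | succ s ihs =>
        obtain ⟨e, he⟩ := ihs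
        refine ⟨e + t * 2 ^ j + 3 ^ u * (s * 2 ^ j + 3 * e) * (1 + 3 * t), ?_⟩
        rw [show j + (s + 1) * (2 * 3 ^ u) = j + s * (2 * 3 ^ u) + 2 * 3 ^ u by ring, pow_add, he,
          htz]
        push_cast
        ring
    obtain ⟨s, hs, hs'⟩ : ∃ s : ℕ, s < 3 ∧ (3 : ℤ) ∣ c - s * 2 ^ j := by
      generalize (2 : ℤ) ^ j = w at h2
      have h3 : (3 : ℤ) ∣ c ∨ (3 : ℤ) ∣ c - w ∨ (3 : ℤ) ∣ c - 2 * w := by
        have hw : w % 3 = 1 ∨ w % 3 = 2 := by omega
        have hc3 : c % 3 = 0 ∨ c % 3 = 1 ∨ c % 3 = 2 := by omega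
        rcases hw with hw | hw <;> rcases hc3 with hc3 | hc3 | hc3 <;> omega
      rcases h3 with h | h | h
      · exact ⟨0, by norm_num, by simpa using h⟩
      · exact ⟨1, by norm_num, by simpa using h⟩
      · exact ⟨2, by norm_num, by simpa using h⟩
    obtain ⟨e, he⟩ := key s
    obtain ⟨d, hd⟩ := hs'
    refine ⟨j + s * (2 * 3 ^ u), ?_, ?_⟩
    · have : s * (2 * 3 ^ u) ≤ 2 * (2 * 3 ^ u) := Nat.mul_le_mul_right _ (by omega)
      rw [pow_succ]
      omega
    · rw [← Int.natCast_modEq_iff]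
      push_cast
      rw [Int.modEq_iff_dvd]
      refine ⟨d - e, ?_⟩
      rw [he]
      have : (y : ℤ) = 2 ^ j + 3 ^ (u + 1) * c := by linarith
      rw [this]
      have : c = s * 2 ^ j + 3 * d := by linarith
      rw [this]
      ring

theorem exists_term (u : ℕ) : ∀ x : ℕ, ∃ t : ℕ, (t = 0 ∨ ∃ i j : ℕ, t = 2 ^ i * 3 ^ j) ∧
    t ≡ x [MOD 3 ^ u] ∧ t ≤ 4 ^ 3 ^ u := by
  induction u with
  | zero => exact fun x => ⟨0, Or.inl rfl, by simp [Nat.modEq_one], by simp⟩
  | succ u ih =>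
    intro x
    have h4 : 4 * 4 ^ 3 ^ u ≤ 4 ^ 3 ^ (u + 1) := by
      rw [← pow_succ']
      refine Nat.pow_le_pow_right (by norm_num) ?_
      have : 0 < 3 ^ u := by positivity
      rw [pow_succ]
      omega
    by_cases hx : 3 ∣ x
    · obtain ⟨x', rfl⟩ := hx
      obtain ⟨t, h1, h2, h3⟩ := ih x'
      refine ⟨3 * t, ?_, ?_, by omega⟩
      · rcases h1 with rfl | ⟨i, j, rfl⟩
        · exact Or.inl rfl
        · exact Or.inr ⟨i, j + 1, by ring⟩
      · rw [pow_succ']
        exact h2.mul_left' 3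
    · obtain ⟨j, hj, hmod⟩ := exists_two_pow u x hx
      refine ⟨2 ^ j, Or.inr ⟨j, 0, by simp⟩, hmod, ?_⟩
      have : 2 ^ j ≤ 4 ^ 3 ^ u := by
        rw [show 4 = 2 ^ 2 by norm_num, ← pow_mul]
        exact Nat.pow_le_pow_right (by norm_num) hj.le
      omega

theorem IsSumOf.mono {n m x : ℕ} (h : IsSumOf n x) (hnm : n ≤ m) : IsSumOf m x := by
  obtain ⟨s, h1, h2, h3⟩ := h
  exact ⟨s, h1.trans hnm, h2, h3⟩

theorem isSumOf_self (x : ℕ) : IsSumOf x x :=
  ⟨Multiset.replicate x 1, by simp, fun m hm => ⟨0, 0, by simp [Multiset.eq_of_mem_replicate hm]⟩,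
    by simp⟩

theorem step {u x : ℕ} (hx : 4 ^ 3 ^ u ≤ x) :
    ∃ x' : ℕ, 3 ^ u * x' ≤ x ∧ ∀ n, IsSumOf n x' → IsSumOf (n + 1) x := by
  obtain ⟨t, h1, h2, h3⟩ := exists_term u x
  have htx : t ≤ x := h3.trans hx
  obtain ⟨x', hx'⟩ := (Nat.modEq_iff_dvd' htx).1 h2
  refine ⟨x', by omega, fun n ⟨s, hs1, hs2, hs3⟩ => ?_⟩
  have hsum : (s.map (3 ^ u * ·)).sum = 3 ^ u * x' := by
    rw [Multiset.sum_map_mul_left, Multiset.map_id', hs3]
  have hmem : ∀ m ∈ s.map (3 ^ u * ·), ∃ i j : ℕ, m = 2 ^ i * 3 ^ j := by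
    intro m hm
    obtain ⟨m', hm', rfl⟩ := Multiset.mem_map.1 hm
    obtain ⟨i, j, rfl⟩ := hs2 m' hm'
    exact ⟨i, u + j, by ring⟩
  rcases h1 with rfl | ht
  · exact ⟨s.map (3 ^ u * ·), by rw [Multiset.card_map]; omega, hmem, by omega⟩
  · refine ⟨t ::ₘ s.map (3 ^ u * ·), by rw [Multiset.card_cons, Multiset.card_map]; omega, ?_, ?_⟩
    · intro m hm
      rcases Multiset.mem_cons.1 hm with rfl | hm
      · exact ht
      · exact hmem m hm
    · rw [Multiset.sum_cons, hsum]; omega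

theorem step_real {l : ℝ} (hl : 2 ≤ l) {x : ℕ} (hx : exp l ≤ x) :
    ∃ x' : ℕ, l / 6 * x' ≤ x ∧ ∀ n, IsSumOf n x' → IsSumOf (n + 1) x := by
  set u := Nat.log 3 ⌊l / 2⌋₊ with hu
  have h0 : 1 ≤ ⌊l / 2⌋₊ := Nat.le_floor (by push_cast; linarith)
  have h1 : ((3 ^ u : ℕ) : ℝ) ≤ l / 2 := by
    refine le_trans ?_ (Nat.floor_le (by linarith))
    exact_mod_cast Nat.pow_log_le_self 3 (by omega : ⌊l / 2⌋₊ ≠ 0)
  have h2 : l / 2 < ((3 ^ (u + 1) : ℕ) : ℝ) := by
    refine (Nat.lt_floor_add_one _).trans_le ?_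
    exact_mod_cast Nat.lt_pow_succ_log_self (by norm_num : 1 < 3) ⌊l / 2⌋₊
  have h3 : 4 ^ 3 ^ u ≤ x := by
    have h4 : (4 : ℝ) ≤ exp 2 := by
      have := add_one_le_exp (1 : ℝ)
      rw [show (2 : ℝ) = 1 + 1 by norm_num, exp_add]
      nlinarith
    have h5 : ((4 ^ 3 ^ u : ℕ) : ℝ) ≤ x := by
      push_cast
      calc (4 : ℝ) ^ 3 ^ u ≤ exp 2 ^ 3 ^ u := by gcongr
        _ = exp ((3 ^ u : ℕ) * 2) := by rw [exp_nat_mul]
        _ ≤ exp l := exp_le_exp.2 (by linarith)
        _ ≤ x := hx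
    exact_mod_cast h5
  obtain ⟨x', h6, h7⟩ := step h3
  refine ⟨x', ?_, h7⟩
  have h8 : ((3 ^ u : ℕ) : ℝ) * x' ≤ x := by exact_mod_cast h6
  refine le_trans ?_ h8
  gcongr
  rw [pow_succ] at h2
  push_cast at h2 ⊢
  linarith

/-- The comparison function. -/
noncomputable def g (n : ℕ) : ℝ := log n + log (log n) - 7

theorem g_succ_le {n : ℕ} (hn : 14 ≤ log n) : n * (g (n + 1) - g n) ≤ 2 := by
  have hn' : (0 : ℝ) < n := by
    rcases Nat.eq_zero_or_pos n with h | h
    · rw [h] at hn; norm_num at hn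
    · exact_mod_cast h
  have h1 : log ((n + 1 : ℕ) : ℝ) - log n ≤ 1 / n := by
    rw [← log_div (by positivity) hn'.ne']
    refine (log_le_sub_one_of_pos (by positivity)).trans (le_of_eq ?_)
    push_cast
    field_simp
    ring
  have h0 : log n ≤ log ((n + 1 : ℕ) : ℝ) := log_le_log hn' (by push_cast; linarith)
  have h2 : log (log ((n + 1 : ℕ) : ℝ)) - log (log n) ≤ 1 / n := by
    rw [← log_div (by linarith) (by linarith)]
    refine (log_le_sub_one_of_pos (div_pos (by linarith) (by linarith))).trans ?_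
    rw [div_sub_one (by linarith), div_le_iff₀ (by linarith)]
    have : 0 < 1 / (n : ℝ) := by positivity
    nlinarith
  have h3 : g (n + 1) - g n ≤ 2 / n := by
    unfold g
    have : (2 : ℝ) / n = 1 / n + 1 / n := by ring
    linarith
  calc n * (g (n + 1) - g n) ≤ n * (2 / n) := by gcongr
    _ = 2 := by field_simp

theorem all_isSumOf {n₀ : ℕ} (hn₀ : 14 ≤ log n₀) (n : ℕ) (hn : n₀ ≤ n) :
    ∀ x : ℕ, (x : ℝ) ≤ exp (n * g n) → IsSumOf (n + ⌊exp (n₀ * g n₀)⌋₊) x := by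
  induction n, hn using Nat.le_induction with
  | base =>
    intro x hx
    exact (isSumOf_self x).mono ((Nat.le_floor hx).trans (Nat.le_add_left _ _))
  | succ n hn ih =>
    intro x hx
    rcases le_total (x : ℝ) (exp (n * g n)) with h | h
    · exact (ih x h).mono (by omega)
    have hn0 : (0 : ℝ) < n₀ := by
      rcases Nat.eq_zero_or_pos n₀ with h | h
      · rw [h] at hn₀; norm_num at hn₀
      · exact_mod_cast h
    have hnn : (n₀ : ℝ) ≤ n := by exact_mod_cast hn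
    have hL : 14 ≤ log n := hn₀.trans (log_le_log hn0 hnn)
    have hn' : (0 : ℝ) < n := by linarith
    have hn1 : (1 : ℝ) ≤ n := by
      have : 0 < n := by exact_mod_cast hn'
      exact_mod_cast this
    have hLL : 0 ≤ log (log n) := log_nonneg (by linarith)
    have hg : log n / 2 ≤ g n := by unfold g; linarith
    have hl : 2 ≤ n * g n := by nlinarith
    obtain ⟨x', h1, h2⟩ := step_real hl h
    have h3 := g_succ_le hL
    have h4 : ((n + 1 : ℕ) : ℝ) * g (n + 1) ≤ n * g n + g n + 4 := by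
      push_cast
      have : g (n + 1) - g n ≤ 2 := by
        by_contra hc
        push Not at hc
        nlinarith
      nlinarith
    have h5 : exp (g n + 4) ≤ n * g n / 6 := by
      have h6 : exp (g n + 4) = n * log n * exp (-3) := by
        unfold g
        rw [show log n + log (log n) - 7 + 4 = log n + log (log n) + -3 by ring, exp_add, exp_add,
          exp_log hn', exp_log (by linarith)]
      have h7 : exp (-3 : ℝ) ≤ 1 / 12 := by
        rw [exp_neg, one_div]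
        refine inv_anti₀ (by norm_num) ?_
        have h8 := exp_one_gt_d9
        rw [show (3 : ℝ) = (3 : ℕ) * 1 by norm_num, exp_nat_mul]
        calc (12 : ℝ) ≤ 2.7 ^ 3 := by norm_num
          _ ≤ exp 1 ^ 3 := by gcongr; linarith
      rw [h6]
      calc n * log n * exp (-3) ≤ n * log n * (1 / 12) := by gcongr
        _ = n * (log n / 2) / 6 := by ring
        _ ≤ n * g n / 6 := by gcongr
    have h9 : (x' : ℝ) ≤ exp (n * g n) := by
      have h10 : exp (g n + 4) * x' ≤ exp (g n + 4) * exp (n * g n) := by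
        calc exp (g n + 4) * x' ≤ n * g n / 6 * x' := by gcongr
          _ ≤ x := h1
          _ ≤ exp (((n + 1 : ℕ) : ℝ) * g (n + 1)) := hx
          _ ≤ exp (g n + 4 + n * g n) := exp_le_exp.2 (by linarith)
          _ = _ := exp_add _ _
      exact le_of_mul_le_mul_left h10 (exp_pos _)
    exact (h2 _ (ih x' h9)).mono (by omega)

theorem lower_bound : ∀ᶠ m : ℕ in atTop, ∀ x : ℕ,
    (x : ℝ) ≤ exp (m * (log m + log (log m) - 10)) → IsSumOf m x := by
  have hlog : Tendsto (fun n : ℕ => log n) atTop atTop :=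
    tendsto_log_atTop.comp tendsto_natCast_atTop_atTop
  obtain ⟨n₀, hn₀⟩ := (hlog.eventually_ge_atTop 14).exists
  set K := ⌊exp (n₀ * g n₀)⌋₊ with hK
  have e1 : ∀ᶠ m : ℕ in atTop, K * (2 * log m) ≤ m := by
    have h1 := (isLittleO_log_id_atTop.const_mul_left (2 * K : ℝ)).bound one_pos
    filter_upwards [tendsto_natCast_atTop_atTop.eventually h1] with m hm
    simp only [id, one_mul, Real.norm_natCast] at hm
    have := (le_abs_self _).trans hm
    linarith
  filter_upwards [e1, hlog.eventually_ge_atTop 14, eventually_ge_atTop (n₀ + K),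
    eventually_ge_atTop (2 * K)] with m h1 h2 h3 h4 x hx
  obtain ⟨n, rfl⟩ : ∃ n, m = n + K := ⟨m - K, by omega⟩
  refine all_isSumOf hn₀ n (by omega) x (hx.trans (exp_le_exp.2 ?_))
  set m := n + K with hm
  have hm' : (0 : ℝ) < m := by
    rcases Nat.eq_zero_or_pos m with h | h
    · rw [h] at h2; norm_num at h2
    · exact_mod_cast h
  have hnm : (m : ℝ) / 2 ≤ n := by
    have : m ≤ 2 * n := by omega
    have : (m : ℝ) ≤ 2 * n := by exact_mod_cast this
    linarith
  have h2' := log_two_lt_d9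
  have h5 : log m - 1 ≤ log n := by
    have := log_le_log (by positivity) hnm
    rw [log_div hm'.ne' (by norm_num)] at this
    linarith
  have h6 : log (log m) - 1 ≤ log (log n) := by
    have := log_le_log (show 0 < log m / 2 by linarith) (show log m / 2 ≤ log n by linarith)
    rw [log_div (by linarith) (by norm_num)] at this
    linarith
  have h7 : log (log m) ≤ log m := (log_le_sub_one_of_pos (by linarith)).trans (by linarith)
  have h8 : 0 ≤ log (log m) := log_nonneg (by linarith)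
  have h9 : log m + log (log m) - 9 ≤ g n := by unfold g; linarith
  have hmn : (m : ℝ) = n + K := by rw [hm]; push_cast; ring
  have hK0 : (0 : ℝ) ≤ K := Nat.cast_nonneg _
  have hn0 : (0 : ℝ) ≤ n := Nat.cast_nonneg _
  have h10 : K * (log m + log (log m) - 9) ≤ m := le_trans (by gcongr; linarith) h1
  calc m * (log m + log (log m) - 10)
      = m * (log m + log (log m) - 9) - m := by ring
    _ ≤ m * (log m + log (log m) - 9) - K * (log m + log (log m) - 9) := by linarith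
    _ = n * (log m + log (log m) - 9) := by
        rw [← sub_mul]; congr 1; linarith
    _ ≤ n * g n := by gcongr

end Pool.Agent.P.MP_126cd2_nt
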