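import Mathlib
import Pool.Agent.P.MP_126cd2_nt.Defs

namespace Pool.Agent.P.MP_126cd2_nt

open Finset Real Filter

theorem count_le {n X : ℕ} (hX : ∀ x, 0 < x → x ≤ X → IsSumOf n x) :
    X ≤ ((Nat.log 2 X + 1) ^ 2 + n).choose n := by
  classical
  set A := Nat.log 2 X + 1 with hA
  set T : Finset ℕ := insert 0 ((range A ×ˢ range A).image fun p => 2 ^ p.1 * 3 ^ p.2) with hT
  have hcard : T.card ≤ A ^ 2 + 1 := by
    refine (card_insert_le _ _).trans ?_
    have := card_image_le (s := range A ×ˢ range A) (f := fun p : ℕ × ℕ => 2 ^ p.1 * 3 ^ p.2)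
    rw [card_product, card_range] at this
    nlinarith
  let f : Sym T n → ℕ := fun s => (s.1.map Subtype.val).sum
  have hsub : Icc 1 X ⊆ univ.image f := by
    intro x hx
    obtain ⟨h1, h2⟩ := mem_Icc.1 hx
    obtain ⟨s, hs1, hs2, hs3⟩ := hX x h1 h2
    set s' : Multiset ℕ := s + Multiset.replicate (n - s.card) 0 with hs'
    have hmem : ∀ m ∈ s', m ∈ T := by
      intro m hm
      rcases Multiset.mem_add.1 hm with hm | hm
      · obtain ⟨i, j, rfl⟩ := hs2 m hm
        have h3 : 2 ^ i * 3 ^ j ≤ X := (Multiset.le_sum_of_mem hm).trans (hs3.le.trans h2)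
        have h4 : 2 ^ i ≤ X := le_trans (Nat.le_mul_of_pos_right _ (by positivity)) h3
        have h5 : 2 ^ j ≤ X := le_trans (le_trans (Nat.pow_le_pow_left (by norm_num) j)
          (Nat.le_mul_of_pos_left _ (by positivity))) h3
        refine mem_insert_of_mem (mem_image.2 ⟨(i, j), ?_, rfl⟩)
        rw [mem_product, mem_range, mem_range]
        exact ⟨Nat.lt_succ_of_le (Nat.le_log_of_pow_le one_lt_two h4),
          Nat.lt_succ_of_le (Nat.le_log_of_pow_le one_lt_two h5)⟩
      · rw [Multiset.eq_of_mem_replicate hm]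
        exact mem_insert_self _ _
    refine mem_image.2 ⟨⟨s'.pmap Subtype.mk hmem, ?_⟩, mem_univ _, ?_⟩
    · rw [Multiset.card_pmap, hs', Multiset.card_add, Multiset.card_replicate]
      omega
    · simp only [f, Multiset.map_pmap, Multiset.pmap_eq_map, Multiset.map_id']
      rw [hs', Multiset.sum_add, Multiset.sum_replicate, smul_zero, add_zero, hs3]
  have h1 := (card_le_card hsub).trans card_image_le
  rw [Nat.card_Icc, card_univ, Sym.card_sym_eq_choose, Fintype.card_coe] at h1
  refine le_trans (by omega) (h1.trans (Nat.choose_le_choose n (by omega)))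

theorem log_le_of_all {n X : ℕ} (hn : 1 ≤ n) (hX1 : 1 ≤ X)
    (hX : ∀ x, 0 < x → x ≤ X → IsSumOf n x) :
    log X ≤ n * (1 + log (((2 * log X + 1) ^ 2 + n) / n)) := by
  have h1 := count_le hX
  set A := Nat.log 2 X + 1 with hA
  have hn' : (0 : ℝ) < n := by exact_mod_cast hn
  have hX' : (1 : ℝ) ≤ X := by exact_mod_cast hX1
  have hlog : 0 ≤ log X := log_nonneg hX'
  have hA' : (A : ℝ) ≤ 2 * log X + 1 := by
    have h2 : ((2 ^ Nat.log 2 X : ℕ) : ℝ) ≤ X := by
      exact_mod_cast Nat.pow_log_le_self 2 (by omega : X ≠ 0)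
    have h3 := log_le_log (by positivity) h2
    push_cast at h3
    rw [log_pow] at h3
    have h4 := log_two_gt_d9
    have h5 : (0 : ℝ) ≤ Nat.log 2 X := Nat.cast_nonneg _
    rw [hA]
    push_cast
    nlinarith
  set B : ℝ := (2 * log X + 1) ^ 2 + n with hB
  have hB0 : 0 < B := by positivity
  have h2 : (X : ℝ) ≤ B ^ n / n.factorial := by
    calc (X : ℝ) ≤ (((A ^ 2 + n).choose n : ℕ) : ℝ) := by exact_mod_cast h1
      _ ≤ (((A ^ 2 + n : ℕ) : ℝ)) ^ n / n.factorial := by
          have := Nat.choose_le_pow_div (α := ℝ) n (A ^ 2 + n)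
          exact_mod_cast this
      _ ≤ B ^ n / n.factorial := by
          gcongr
          push_cast
          rw [hB]
          gcongr
  have h3 : (n : ℝ) ^ n / n.factorial ≤ exp n := pow_div_factorial_le_exp _ hn'.le n
  have h4 : (X : ℝ) ≤ exp n * (B / n) ^ n := by
    refine h2.trans ?_
    have : B ^ n / n.factorial = (n : ℝ) ^ n / n.factorial * (B / n) ^ n := by
      rw [div_pow]; field_simp
    rw [this]
    gcongr
  have h5 := log_le_log (by linarith) h4
  rw [log_mul (exp_pos _).ne' (by positivity), log_exp, log_pow] at h5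
  linarith

theorem upper_bound {n X : ℕ} (hn : 8 ≤ log n) (hX1 : 1 ≤ X)
    (hX : ∀ x, 0 < x → x ≤ X → IsSumOf n x) :
    log X ≤ n * (log n + 2 * log (log n) + 10) := by
  have hn1 : 1 ≤ n := by
    rcases Nat.eq_zero_or_pos n with h | h
    · rw [h] at hn; norm_num at hn
    · exact h
  have hn' : (0 : ℝ) < n := by exact_mod_cast hn1
  have hn1' : (1 : ℝ) ≤ n := by exact_mod_cast hn1
  have h1 := log_le_of_all hn1 hX1 hX
  set l := log X with hl
  set L := log n with hL
  have hLL : 0 ≤ log L := log_nonneg (by linarith)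
  rcases le_or_gt l n with h | h
  · refine h.trans ?_
    nlinarith
  set t := l / n with ht
  have ht1 : 1 ≤ t := by rw [ht, le_div_iff₀ hn']; linarith
  have hlt : l = n * t := by rw [ht]; field_simp
  have h2 : ((2 * l + 1) ^ 2 + n) / n ≤ 10 * n * t ^ 2 := by
    rw [div_le_iff₀ hn', hlt]
    have h3 : 1 ≤ n * t := by nlinarith
    have h4 : (n : ℝ) ≤ n * t := by nlinarith
    nlinarith
  have h5 : log (((2 * l + 1) ^ 2 + n) / n) ≤ log 10 + L + 2 * log t := by
    refine (log_le_log (by positivity) h2).trans (le_of_eq ?_)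
    rw [log_mul (by positivity) (by positivity), log_mul (by norm_num) hn'.ne', log_pow]
    push_cast
    ring
  have h10 : log 10 ≤ 4 := by
    have h16 : log 16 = 4 * log 2 := by
      rw [show (16 : ℝ) = 2 ^ 4 by norm_num, log_pow]; norm_num
    have := log_le_log (by norm_num : (0 : ℝ) < 10) (by norm_num : (10 : ℝ) ≤ 16)
    have := log_two_lt_d9
    linarith
  have h6 : t ≤ 5 + L + 2 * log t := by
    have : n * t ≤ n * (1 + (log 10 + L + 2 * log t)) := by
      rw [← hlt]; exact h1.trans (by gcongr)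
    have := le_of_mul_le_mul_left this hn'
    linarith
  have h7 : log t ≤ t / 4 + 1 := by
    have h8 := log_le_sub_one_of_pos (show 0 < t / 4 by positivity)
    rw [log_div (by positivity) (by norm_num)] at h8
    have h4 : log 4 = 2 * log 2 := by
      rw [show (4 : ℝ) = 2 ^ 2 by norm_num, log_pow]; norm_num
    have := log_two_lt_d9
    linarith
  have h9 : t ≤ 4 * L := by linarith
  have h11 : log t ≤ 2 + log L := by
    refine (log_le_log (by positivity) h9).trans ?_
    rw [log_mul (by norm_num) (by linarith)]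
    have h4 : log 4 = 2 * log 2 := by
      rw [show (4 : ℝ) = 2 ^ 2 by norm_num, log_pow]; norm_num
    have := log_two_lt_d9
    linarith
  rw [hlt]
  gcongr
  linarith

end Pool.Agent.P.MP_126cd2_nt
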